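import Pool.Agent.Helper84.TS.Opt
import Pool.Agent.Helper23.TS.Row

/-!
# The frame for four classes: rows, columns, slacks

`P i` is the row cell of the class `i` (any cell of the class: `A i (s i) = some (P i)`), the other
cells `A i m`, `m ≠ i`, of the class are counted in the column `m`, and the main cell separately if it
is not the row cell. All multipliers are arbitrary real numbers (they may depend on the family).
-/

set_option autoImplicit false

namespace Pool.Agent.Helper36.TS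

open Pool.Agent.Helper84.TS Pool.Agent.Helper23.TS

/-- the slot function with the exact `d` -/
noncomputable def sx (c d u : ℝ) : ℝ :=
  c * u - (1 - d) * u ^ 2 / 2 + (max (-u) 0) ^ 3 / 3 + (1 - d) * (max (u - 1) 0) ^ 2

/-- the constant of a row -/
noncomputable def rowc (ν d : ℝ) : ℝ := 7 / 6 - 3 / 2 * d + d ^ 2 / 2 - d ^ 3 / 6 - ν * (1 + d)

/-- the exact row formula -/
theorem row_sx {i j k l : Fin 4} {v : Fin 4 → ℝ} (ν : ℝ) (hv : IsCell i v)
    (h : [i, j, k, l].Nodup) : fcl i v = rowc ν (v i - 1) + sx ν (v i - 1) (-v j)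
      + sx ν (v i - 1) (-v k) + sx ν (v i - 1) (-v l) := by
  have a := (cell_lin hv h).1
  have e : v i = -(v j + v k + v l) := by linarith
  rw [fcl_eq h v]
  simp only [ff, rowc, sx]
  rw [e]
  ring

theorem sx_of_le {c d u : ℝ} (h : u ≤ 1) :
    sx c d u = c * u - (1 - d) * u ^ 2 / 2 + (max (-u) 0) ^ 3 / 3 := by
  rw [sx, max_eq_right (by linarith : u - 1 ≤ 0)]
  ring

/-- the slack of the pair inequality of the classes `a`, `b` (complementary columns `m`, `n`) -/
noncomputable def slk (P : Fin 4 → Fin 4 → ℝ) (a b m n : Fin 4) : ℝ :=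
  (P a a - 1) + (P b b - 1) - min (-P a m) (-P b m) - min (-P a n) (-P b n)

theorem slk_comm (P : Fin 4 → Fin 4 → ℝ) (a b m n : Fin 4) : slk P a b m n = slk P b a m n := by
  unfold slk
  rw [min_comm (-P a m), min_comm (-P a n)]
  ring

theorem slk_comm' (P : Fin 4 → Fin 4 → ℝ) (a b m n : Fin 4) : slk P a b m n = slk P a b n m := by
  unfold slk
  ring

/-- the column `m` with the classes `a`, `b`, `e` -/
noncomputable def colx (ν : Fin 4 → ℝ) (k : Fin 4 → Fin 4 → ℝ) (P : Fin 4 → Fin 4 → ℝ)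
    (m a b e : Fin 4) : ℝ :=
  sx (ν a) (P a a - 1) (-P a m) + sx (ν b) (P b b - 1) (-P b m) + sx (ν e) (P e e - 1) (-P e m)
    - k a b * min (-P a m) (-P b m) - k a e * min (-P a m) (-P e m)
    - k b e * min (-P b m) (-P e m)

/-- the column with its lowest class `e` -/
theorem colx_low (ν : Fin 4 → ℝ) (k : Fin 4 → Fin 4 → ℝ) {P : Fin 4 → Fin 4 → ℝ}
    {m a b e : Fin 4} (h1 : -P e m ≤ -P a m) (h2 : -P e m ≤ -P b m) :
    colx ν k P m a b e = sx (ν a) (P a a - 1) (-P a m) + sx (ν b) (P b b - 1) (-P b m)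
      + sx (ν e) (P e e - 1) (-P e m) - k a b * min (-P a m) (-P b m)
      - (k a e + k b e) * (-P e m) := by
  rw [colx, min_eq_right h1, min_eq_right h2]
  ring

section

variable {A : Fin 4 → Fin 4 → Option (Fin 4 → ℝ)} {P : Fin 4 → Fin 4 → ℝ} {s : Fin 4 → Fin 4}

/-- the cell `A i m`, if it is not the row cell -/
noncomputable def rst (A : Fin 4 → Fin 4 → Option (Fin 4 → ℝ)) (s : Fin 4 → Fin 4)
    (i m : Fin 4) : ℝ :=
  if s i = m then 0 else fo i (A i m)

theorem rst_row (A : Fin 4 → Fin 4 → Option (Fin 4 → ℝ)) {s : Fin 4 → Fin 4} {i m : Fin 4}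
    (h : s i = m) : rst A s i m = 0 := by
  rw [rst, if_pos h]

theorem rst_none {A : Fin 4 → Fin 4 → Option (Fin 4 → ℝ)} (s : Fin 4 → Fin 4) {i m : Fin 4}
    (h : A i m = none) : rst A s i m = 0 := by
  rw [rst, h]
  split_ifs <;> rfl

theorem rst_some {A : Fin 4 → Fin 4 → Option (Fin 4 → ℝ)} {s : Fin 4 → Fin 4} {i m : Fin 4}
    {F : Fin 4 → ℝ} (hs : s i ≠ m) (h : A i m = some F) : rst A s i m = fcl i F := by
  rw [rst, if_neg hs, h]
  rfl

theorem vv_rst (hP : ∀ i, A i (s i) = some (P i)) (i : Fin 4) :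
    VV A i = fcl i (P i) + ∑ m, rst A s i m := by
  unfold VV rst
  rw [← Finset.add_sum_erase _ _ (Finset.mem_univ (s i)), hP i,
    ← Finset.add_sum_erase Finset.univ (fun m => if s i = m then (0 : ℝ) else fo i (A i m))
      (Finset.mem_univ (s i)), if_pos rfl, zero_add]
  congr 1
  refine Finset.sum_congr rfl fun m hm => ?_
  rw [if_neg (Finset.ne_of_mem_erase hm).symm]

theorem cellP (h : OF A) (hP : ∀ i, A i (s i) = some (P i)) (i : Fin 4) : IsCell i (P i) :=
  h.cell i (s i) (P i) (hP i)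

theorem sepP (h : OF A) (hP : ∀ i, A i (s i) = some (P i)) {i j : Fin 4} (hij : i ≠ j) :
    Sep (P i) (P j) :=
  h.sep i (s i) j (s j) (P i) (P j) (hP i) (hP j) fun e => hij (by rw [Prod.mk.injEq] at e; exact e.1)

theorem slk_nonneg (h : OF A) (hP : ∀ i, A i (s i) = some (P i)) {a b m n : Fin 4}
    (hn : [a, b, m, n].Nodup) : 0 ≤ slk P a b m n := by
  have hab : a ≠ b := by
    simp only [List.nodup_cons, List.mem_cons, List.not_mem_nil, or_false, not_or] at hn
    exact hn.1.1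
  have := (sep_min (cellP h hP a) (cellP h hP b) hn).1 (sepP h hP hab)
  unfold slk
  linarith

/-- **The frame.** `ν`: multipliers of the rows, `k a b` (`a < b`): multipliers of the pairs; the
column `m` may use the multiple `L m a b` of the slack of the pair `a < b` (with `m ≠ a, b`), the two
columns together at most `k a b`. -/
theorem frame (h : OF A) (hP : ∀ i, A i (s i) = some (P i)) {ν W : Fin 4 → ℝ}
    {k : Fin 4 → Fin 4 → ℝ} {L : Fin 4 → Fin 4 → Fin 4 → ℝ}
    (c0 : colx ν k P 0 1 2 3 + rst A s 1 0 + rst A s 2 0 + rst A s 3 0 ≤ W 0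
        + L 0 1 2 * slk P 1 2 0 3 + L 0 1 3 * slk P 1 3 0 2 + L 0 2 3 * slk P 2 3 0 1)
    (c1 : colx ν k P 1 0 2 3 + rst A s 0 1 + rst A s 2 1 + rst A s 3 1 ≤ W 1
        + L 1 0 2 * slk P 0 2 1 3 + L 1 0 3 * slk P 0 3 1 2 + L 1 2 3 * slk P 2 3 0 1)
    (c2 : colx ν k P 2 0 1 3 + rst A s 0 2 + rst A s 1 2 + rst A s 3 2 ≤ W 2
        + L 2 0 1 * slk P 0 1 2 3 + L 2 0 3 * slk P 0 3 1 2 + L 2 1 3 * slk P 1 3 0 2)
    (c3 : colx ν k P 3 0 1 2 + rst A s 0 3 + rst A s 1 3 + rst A s 2 3 ≤ W 3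
        + L 3 0 1 * slk P 0 1 2 3 + L 3 0 2 * slk P 0 2 1 3 + L 3 1 2 * slk P 1 2 0 3)
    (l01 : L 2 0 1 + L 3 0 1 ≤ k 0 1) (l02 : L 1 0 2 + L 3 0 2 ≤ k 0 2)
    (l03 : L 1 0 3 + L 2 0 3 ≤ k 0 3) (l12 : L 0 1 2 + L 3 1 2 ≤ k 1 2)
    (l13 : L 0 1 3 + L 2 1 3 ≤ k 1 3) (l23 : L 0 2 3 + L 1 2 3 ≤ k 2 3) :
    ∑ i, VV A i ≤ rowc (ν 0) (P 0 0 - 1) + rowc (ν 1) (P 1 1 - 1) + rowc (ν 2) (P 2 2 - 1)
      + rowc (ν 3) (P 3 3 - 1)
      + k 0 1 * ((P 0 0 - 1) + (P 1 1 - 1)) + k 0 2 * ((P 0 0 - 1) + (P 2 2 - 1))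
      + k 0 3 * ((P 0 0 - 1) + (P 3 3 - 1)) + k 1 2 * ((P 1 1 - 1) + (P 2 2 - 1))
      + k 1 3 * ((P 1 1 - 1) + (P 3 3 - 1)) + k 2 3 * ((P 2 2 - 1) + (P 3 3 - 1))
      + (W 0 + W 1 + W 2 + W 3)
      + (rst A s 0 0 + rst A s 1 1 + rst A s 2 2 + rst A s 3 3) := by
  have hc := cellP h hP
  rw [Fin.sum_univ_four, vv_rst hP 0, vv_rst hP 1, vv_rst hP 2, vv_rst hP 3]
  simp only [Fin.sum_univ_four]
  rw [row_sx (ν 0) (hc 0) (by decide : [(0 : Fin 4), 1, 2, 3].Nodup),
    row_sx (ν 1) (hc 1) (by decide : [(1 : Fin 4), 0, 2, 3].Nodup),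
    row_sx (ν 2) (hc 2) (by decide : [(2 : Fin 4), 0, 1, 3].Nodup),
    row_sx (ν 3) (hc 3) (by decide : [(3 : Fin 4), 0, 1, 2].Nodup)]
  have s01 := slk_nonneg h hP (a := 0) (b := 1) (m := 2) (n := 3) (by decide)
  have s02 := slk_nonneg h hP (a := 0) (b := 2) (m := 1) (n := 3) (by decide)
  have s03 := slk_nonneg h hP (a := 0) (b := 3) (m := 1) (n := 2) (by decide)
  have s12 := slk_nonneg h hP (a := 1) (b := 2) (m := 0) (n := 3) (by decide)
  have s13 := slk_nonneg h hP (a := 1) (b := 3) (m := 0) (n := 2) (by decide)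
  have s23 := slk_nonneg h hP (a := 2) (b := 3) (m := 0) (n := 1) (by decide)
  have t01 := mul_le_mul_of_nonneg_right l01 s01
  have t02 := mul_le_mul_of_nonneg_right l02 s02
  have t03 := mul_le_mul_of_nonneg_right l03 s03
  have t12 := mul_le_mul_of_nonneg_right l12 s12
  have t13 := mul_le_mul_of_nonneg_right l13 s13
  have t23 := mul_le_mul_of_nonneg_right l23 s23
  have e01 : k 0 1 * slk P 0 1 2 3 = k 0 1 * ((P 0 0 - 1) + (P 1 1 - 1))
      - k 0 1 * min (-P 0 2) (-P 1 2) - k 0 1 * min (-P 0 3) (-P 1 3) := by unfold slk; ring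
  have e02 : k 0 2 * slk P 0 2 1 3 = k 0 2 * ((P 0 0 - 1) + (P 2 2 - 1))
      - k 0 2 * min (-P 0 1) (-P 2 1) - k 0 2 * min (-P 0 3) (-P 2 3) := by unfold slk; ring
  have e03 : k 0 3 * slk P 0 3 1 2 = k 0 3 * ((P 0 0 - 1) + (P 3 3 - 1))
      - k 0 3 * min (-P 0 1) (-P 3 1) - k 0 3 * min (-P 0 2) (-P 3 2) := by unfold slk; ring
  have e12 : k 1 2 * slk P 1 2 0 3 = k 1 2 * ((P 1 1 - 1) + (P 2 2 - 1))
      - k 1 2 * min (-P 1 0) (-P 2 0) - k 1 2 * min (-P 1 3) (-P 2 3) := by unfold slk; ring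
  have e13 : k 1 3 * slk P 1 3 0 2 = k 1 3 * ((P 1 1 - 1) + (P 3 3 - 1))
      - k 1 3 * min (-P 1 0) (-P 3 0) - k 1 3 * min (-P 1 2) (-P 3 2) := by unfold slk; ring
  have e23 : k 2 3 * slk P 2 3 0 1 = k 2 3 * ((P 2 2 - 1) + (P 3 3 - 1))
      - k 2 3 * min (-P 2 0) (-P 3 0) - k 2 3 * min (-P 2 1) (-P 3 1) := by unfold slk; ring
  rw [add_mul] at t01 t02 t03 t12 t13 t23
  rw [e01] at t01
  rw [e02] at t02
  rw [e03] at t03
  rw [e12] at t12
  rw [e13] at t13
  rw [e23] at t23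
  simp only [colx] at c0 c1 c2 c3
  linarith [c0, c1, c2, c3, t01, t02, t03, t12, t13, t23]

/-! ### The cells of a column in real variables -/

/-- what is known about a cell `F = (i; m)` (`w = 2 - F_m`, `d = d_F`, `al`, `be` the caps of the
classes `x`, `y`) and the row cells: entries `ui`, `ux`, `uy` of the column `m`, heights `di`, `dx`,
`dy`; `sx`, `sy` the slacks of the pairs `{i, x}`, `{i, y}`. If `ux ≤ 1` then `min ux (2 - w) = ux`. -/
structure FarC (f w d al be ui ux uy di dx dy sx sy : ℝ) : Prop where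
  w0 : 0 < w
  w1 : w < 1
  d0 : 0 ≤ d
  d1 : d < 1
  al1 : al < 1
  be1 : be < 1
  sum : al + be = 1 - w + d
  al0 : d - w < al
  be0 : d - w < be
  vol : f = w * (1 - al) * (1 - be) - w ^ 3 / 3 + ((max (d - al) 0) ^ 3 + (max (d - be) 0) ^ 3) / 3
  capx : min ux (2 - w) ≤ al + dx ∨ di - d + (min ux (2 - w) - min ui ux) ≤ sx
  capy : min uy (2 - w) ≤ be + dy ∨ di - d + (min uy (2 - w) - min ui uy) ≤ sy

/-- a cell `(i; m)` and the row cell of another class -/
theorem cap_rst (h : OF A) (hP : ∀ i, A i (s i) = some (P i)) {i m x y : Fin 4} {F : Fin 4 → ℝ}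
    (hF : A i m = some F) (hn : [i, m, x, y].Nodup) :
    min (-P x m) (2 - (2 + F m)) ≤ (F y + (F i - 1)) + (P x x - 1) ∨
      (P i i - 1) - (F i - 1) + (min (-P x m) (2 - (2 + F m)) - min (-P i m) (-P x m)) ≤
        slk P i x m y := by
  have hix : i ≠ x := by
    simp only [List.nodup_cons, List.mem_cons, List.not_mem_nil, or_false, not_or] at hn
    exact hn.1.2.1
  have hcF := h.cell i m F hF
  have hcx := cellP h hP x
  have hn' : [i, x, m, y].Nodup := by
    clear * - hn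
    revert hn
    revert i m x y
    decide
  have hsep : Sep F (P x) := h.sep i m x (s x) F (P x) hF (hP x)
    (fun e => hix (by rw [Prod.mk.injEq] at e; exact e.1))
  have h1 := (sep_min hcF hcx hn').1 hsep
  rw [show 2 - (2 + F m) = -F m by ring, min_comm (-P x m) (-F m)]
  rcases le_total (-F y) (-P x y) with h2 | h2
  · rw [min_eq_left h2] at h1
    left
    linarith
  · rw [min_eq_right h2] at h1
    right
    unfold slk
    have e1 := min_le_right (-P i y) (-P x y)
    linarith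

/-- **A cell of the column `m` in real variables.** -/
theorem farC_rst (h : OF A) (hP : ∀ i, A i (s i) = some (P i)) {i m x y : Fin 4} {F : Fin 4 → ℝ}
    (hF : A i m = some F) (hn : [i, m, x, y].Nodup) :
    FarC (fcl i F) (2 + F m) (F i - 1) (F y + (F i - 1)) (F x + (F i - 1))
      (-P i m) (-P x m) (-P y m) (P i i - 1) (P x x - 1) (P y y - 1)
      (slk P i x m y) (slk P i y m x) := by
  have hmi : m ≠ i := (nodup_ne hn).1
  have hcell := h.cell i m F hF
  have hgt := h.far i m F hmi hF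
  obtain ⟨b1, b2, b3, b4, b5, b6, b7, b8, b9⟩ := far_bounds hcell hn hgt.le
  have hf := far_formula hcell hn hgt.le
  refine ⟨b1, by linarith, b3, b4, b5, b6, b7, b8, b9, ?_, cap_rst h hP hF hn,
    cap_rst h hP hF (nodup_swap34 hn)⟩
  rw [hf, show F i - 1 - (F y + (F i - 1)) = -F y by ring,
    show F i - 1 - (F x + (F i - 1)) = -F x by ring]

/-- the own condition if the row cell is the main cell -/
theorem own_rst (h : OF A) (hP : ∀ i, A i (s i) = some (P i)) {i m : Fin 4} {F : Fin 4 → ℝ}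
    (hF : A i m = some F) (hm : m ≠ i) (hs : s i = i) :
    2 + F m ≤ -(-P i m) + max ((P i i - 1) - (F i - 1)) 0 := by
  have hP' := hP i
  rw [hs] at hP'
  have hsep : Sep (P i) F := h.sep i i i m (P i) F hP' hF
    (fun e => hm (by rw [Prod.mk.injEq] at e; exact e.2.symm))
  have := own (h.cell i i _ hP') (h.cell i m F hF) hsep hm (h.main i _ hP') (h.far i m F hm hF)
  rw [show P i i - 1 - (F i - 1) = P i i - F i by ring]
  linarith

/-- the own condition for two cells of one class: `G = (i; j)` far, `F` any other cell -/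
theorem own_main (h : OF A) {i j : Fin 4} {F G : Fin 4 → ℝ} (hF : A i i = some F)
    (hG : A i j = some G) (hj : j ≠ i) :
    2 + G j ≤ -(-F j) + max ((F i - 1) - (G i - 1)) 0 := by
  have hsep : Sep F G := h.sep i i i j F G hF hG
    (fun e => hj (by rw [Prod.mk.injEq] at e; exact e.2.symm))
  have := own (h.cell i i _ hF) (h.cell i j G hG) hsep hj (h.main i _ hF) (h.far i j G hj hG)
  rw [show F i - 1 - (G i - 1) = F i - G i by ring]
  linarith

/-- two far cells `F = (i; m)`, `G = (i; n)` of one class -/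
theorem own_far (h : OF A) {i m n : Fin 4} {F G : Fin 4 → ℝ} (hF : A i m = some F)
    (hG : A i n = some G) (hm : m ≠ i) (hn : n ≠ i) (hmn : m ≠ n) :
    2 + F m ≤ G m + max ((G i - 1) - (F i - 1)) 0 ∨
      2 + G n ≤ F n + max ((F i - 1) - (G i - 1)) 0 := by
  have hsep : Sep F G := h.sep i m i n F G hF hG
    (fun e => hmn (by rw [Prod.mk.injEq] at e; exact e.2))
  have := sep_far_far (h.cell i m F hF) (h.cell i n G hG) hsep hm hn (h.far i m F hm hF)
    (h.far i n G hn hG)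
  rw [show G i - 1 - (F i - 1) = G i - F i by ring, show F i - 1 - (G i - 1) = F i - G i by ring]
  rcases this with h1 | h1
  · left; linarith [h1.1]
  · right; linarith [h1.1]

/-- two far cells `F = (i; m)`, `G = (x; m)` of one column -/
theorem two_rst (h : OF A) {i m x y : Fin 4} {F G : Fin 4 → ℝ} (hF : A i m = some F)
    (hG : A x m = some G) (hn : [i, m, x, y].Nodup) :
    min (2 - (2 + F m)) (2 - (2 + G m)) ≤ max (F y) (G y) + (F i - 1) + (G x - 1) := by
  have hix : i ≠ x := by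
    simp only [List.nodup_cons, List.mem_cons, List.not_mem_nil, or_false, not_or] at hn
    exact hn.1.2.1
  have hn' : [i, x, m, y].Nodup := by
    clear * - hn
    revert hn
    revert i m x y
    decide
  have hsep : Sep F G := h.sep i m x m F G hF hG
    (fun e => hix (by rw [Prod.mk.injEq] at e; exact e.1))
  have h1 := (sep_min (h.cell i m F hF) (h.cell x m G hG) hn').1 hsep
  rw [min_neg_neg (F y) (G y)] at h1
  rw [show 2 - (2 + F m) = -F m by ring, show 2 - (2 + G m) = -G m by ring]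
  linarith

end

end Pool.Agent.Helper36.TS
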