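import Pool.Agent.Helper36.TS.Frame

/-!
# The general frame: some classes may contribute only the number `f (P i)`

Weights `e i` (`1`: the class `i` is a row, `0`: the class `i` contributes `f (P i)` and its pair
inequalities only). All pair multipliers are allowed.
-/

set_option autoImplicit false

namespace Pool.Agent.Helper36.TS

open Pool.Agent.Helper84.TS Pool.Agent.Helper23.TS

/-- the column `m` with the classes `a`, `b`, `c` and the weights `e` -/
noncomputable def colg (e ν : Fin 4 → ℝ) (k : Fin 4 → Fin 4 → ℝ) (P : Fin 4 → Fin 4 → ℝ)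
    (m a b c : Fin 4) : ℝ :=
  e a * sx (ν a) (P a a - 1) (-P a m) + e b * sx (ν b) (P b b - 1) (-P b m)
    + e c * sx (ν c) (P c c - 1) (-P c m)
    - k a b * min (-P a m) (-P b m) - k a c * min (-P a m) (-P c m)
    - k b c * min (-P b m) (-P c m)

section

variable {A : Fin 4 → Fin 4 → Option (Fin 4 → ℝ)} {P : Fin 4 → Fin 4 → ℝ} {s : Fin 4 → Fin 4}

/-- **The general frame.** `e`: weights, `ν`: multipliers of the rows, `κ`: multipliers of the
pairs, `L m a b`: the multiple of the slack of the pair `a, b` which the column `m` may use. -/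
theorem frameG (h : OF A) (hP : ∀ i, A i (s i) = some (P i)) {i j k l : Fin 4}
    (hn : [i, j, k, l].Nodup) (e ν W : Fin 4 → ℝ) (κ : Fin 4 → Fin 4 → ℝ)
    (L : Fin 4 → Fin 4 → Fin 4 → ℝ)
    (ci : colg e ν κ P i j k l + rst A s j i + rst A s k i + rst A s l i ≤ W i
        + L i j k * slk P j k i l + L i j l * slk P j l i k + L i k l * slk P k l i j)
    (cj : colg e ν κ P j i k l + rst A s i j + rst A s k j + rst A s l j ≤ W j
        + L j i k * slk P i k j l + L j i l * slk P i l j k + L j k l * slk P k l i j)
    (ck : colg e ν κ P k i j l + rst A s i k + rst A s j k + rst A s l k ≤ W k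
        + L k i j * slk P i j k l + L k i l * slk P i l j k + L k j l * slk P j l i k)
    (cl : colg e ν κ P l i j k + rst A s i l + rst A s j l + rst A s k l ≤ W l
        + L l i j * slk P i j k l + L l i k * slk P i k j l + L l j k * slk P j k i l)
    (lij : L k i j + L l i j ≤ κ i j) (lik : L j i k + L l i k ≤ κ i k)
    (lil : L j i l + L k i l ≤ κ i l) (ljk : L i j k + L l j k ≤ κ j k)
    (ljl : L i j l + L k j l ≤ κ j l) (lkl : L i k l + L j k l ≤ κ k l) :
    ∑ t, VV A t ≤ (e i * rowc (ν i) (P i i - 1) + (1 - e i) * fcl i (P i))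
      + (e j * rowc (ν j) (P j j - 1) + (1 - e j) * fcl j (P j))
      + (e k * rowc (ν k) (P k k - 1) + (1 - e k) * fcl k (P k))
      + (e l * rowc (ν l) (P l l - 1) + (1 - e l) * fcl l (P l))
      + κ i j * ((P i i - 1) + (P j j - 1)) + κ i k * ((P i i - 1) + (P k k - 1))
      + κ i l * ((P i i - 1) + (P l l - 1)) + κ j k * ((P j j - 1) + (P k k - 1))
      + κ j l * ((P j j - 1) + (P l l - 1)) + κ k l * ((P k k - 1) + (P l l - 1))
      + (W i + W j + W k + W l)
      + (rst A s i i + rst A s j j + rst A s k k + rst A s l l) := by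
  have hc := cellP h hP
  have nj : [j, i, k, l].Nodup := by
    clear * - hn; revert hn; revert i j k l; decide
  have nk : [k, i, j, l].Nodup := by
    clear * - hn; revert hn; revert i j k l; decide
  have nl : [l, i, j, k].Nodup := by
    clear * - hn; revert hn; revert i j k l; decide
  have n1 : [i, k, j, l].Nodup := by
    clear * - hn; revert hn; revert i j k l; decide
  have n2 : [i, l, j, k].Nodup := by
    clear * - hn; revert hn; revert i j k l; decide
  have n3 : [j, k, i, l].Nodup := by
    clear * - hn; revert hn; revert i j k l; decide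
  have n4 : [j, l, i, k].Nodup := by
    clear * - hn; revert hn; revert i j k l; decide
  have n5 : [k, l, i, j].Nodup := by
    clear * - hn; revert hn; revert i j k l; decide
  rw [sum4 hn (fun t => VV A t), vv_rst hP i, vv_rst hP j, vv_rst hP k, vv_rst hP l,
    sum4 hn (fun m => rst A s i m), sum4 hn (fun m => rst A s j m), sum4 hn (fun m => rst A s k m),
    sum4 hn (fun m => rst A s l m)]
  have ri := congrArg (fun t => e i * t) (row_sx (ν i) (hc i) hn)
  have rj := congrArg (fun t => e j * t) (row_sx (ν j) (hc j) nj)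
  have rk := congrArg (fun t => e k * t) (row_sx (ν k) (hc k) nk)
  have rl := congrArg (fun t => e l * t) (row_sx (ν l) (hc l) nl)
  simp only [mul_add] at ri rj rk rl
  have sij := slk_nonneg h hP hn
  have sik := slk_nonneg h hP n1
  have sil := slk_nonneg h hP n2
  have sjk := slk_nonneg h hP n3
  have sjl := slk_nonneg h hP n4
  have skl := slk_nonneg h hP n5
  have tij := mul_le_mul_of_nonneg_right lij sij
  have tik := mul_le_mul_of_nonneg_right lik sik
  have til := mul_le_mul_of_nonneg_right lil sil
  have tjk := mul_le_mul_of_nonneg_right ljk sjk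
  have tjl := mul_le_mul_of_nonneg_right ljl sjl
  have tkl := mul_le_mul_of_nonneg_right lkl skl
  have eij : κ i j * slk P i j k l = κ i j * ((P i i - 1) + (P j j - 1))
      - κ i j * min (-P i k) (-P j k) - κ i j * min (-P i l) (-P j l) := by unfold slk; ring
  have eik : κ i k * slk P i k j l = κ i k * ((P i i - 1) + (P k k - 1))
      - κ i k * min (-P i j) (-P k j) - κ i k * min (-P i l) (-P k l) := by unfold slk; ring
  have eil : κ i l * slk P i l j k = κ i l * ((P i i - 1) + (P l l - 1))
      - κ i l * min (-P i j) (-P l j) - κ i l * min (-P i k) (-P l k) := by unfold slk; ring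
  have ejk : κ j k * slk P j k i l = κ j k * ((P j j - 1) + (P k k - 1))
      - κ j k * min (-P j i) (-P k i) - κ j k * min (-P j l) (-P k l) := by unfold slk; ring
  have ejl : κ j l * slk P j l i k = κ j l * ((P j j - 1) + (P l l - 1))
      - κ j l * min (-P j i) (-P l i) - κ j l * min (-P j k) (-P l k) := by unfold slk; ring
  have ekl : κ k l * slk P k l i j = κ k l * ((P k k - 1) + (P l l - 1))
      - κ k l * min (-P k i) (-P l i) - κ k l * min (-P k j) (-P l j) := by unfold slk; ring
  rw [add_mul] at tij tik til tjk tjl tkl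
  rw [eij] at tij
  rw [eik] at tik
  rw [eil] at til
  rw [ejk] at tjk
  rw [ejl] at tjl
  rw [ekl] at tkl
  simp only [colg] at ci cj ck cl
  linarith [ci, cj, ck, cl, tij, tik, til, tjk, tjl, tkl, ri, rj, rk, rl]

/-- the cap of a far cell `F = (i; m)` on the main row cell of another class `x` (kind A), or the
other alternative (kind B: `q^x_m + q^x_y ≤ d_F + d_x`, that is `q^x_i ≥ 1 - d_F`) -/
theorem capAB (h : OF A) (hP : ∀ i, A i (s i) = some (P i)) {i m x y : Fin 4} {F : Fin 4 → ℝ}
    (hF : A i m = some F) (hn : [i, m, x, y].Nodup) (hs : s x = x) :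
    -P x m ≤ (F y + (F i - 1)) + (P x x - 1) ∨
      (-P x m + -P x y ≤ (F i - 1) + (P x x - 1) ∧ 1 - (F i - 1) ≤ -P x i) := by
  have hix : i ≠ x := by
    simp only [List.nodup_cons, List.mem_cons, List.not_mem_nil, or_false, not_or] at hn
    exact hn.1.2.1
  have hcF := h.cell i m F hF
  have hcx := cellP h hP x
  have hmi : m ≠ i := (nodup_ne hn).1
  have hn' : [i, x, m, y].Nodup := by
    clear * - hn
    revert hn
    revert i m x y
    decide
  have hnx : [x, i, m, y].Nodup := by
    clear * - hn
    revert hn
    revert i m x y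
    decide
  have hsep : Sep F (P x) := h.sep i m x (s x) F (P x) hF (hP x)
    (fun e => hix (by rw [Prod.mk.injEq] at e; exact e.1))
  have h1 := (sep_min hcF hcx hn').1 hsep
  have h2 := h.far i m F hmi hF
  have hPx := hP x
  rw [hs] at hPx
  have h3 := h.main x (P x) hPx m (nodup_ne hnx).2.1
  rw [min_eq_right (by linarith : -P x m ≤ -F m)] at h1
  have h4 := (cell_lin hcx hnx).1
  rcases le_total (-F y) (-P x y) with h2 | h2
  · rw [min_eq_left h2] at h1
    left
    linarith
  · rw [min_eq_right h2] at h1
    right
    constructor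
    · linarith
    · linarith

end

end Pool.Agent.Helper36.TS
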