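import Pool.Agent.Helper36.TS.Thirds

/-!
# Far cells

For a cell `v` of class `i` and a column `j`: `w = 2 + v j` (the entry of the row is `2 - w`),
`d = v i - 1`, and for the two other columns `k`, `l`: `al = v l + d`, `be = v k + d`,
`al + be = 1 - w + d`.
-/

set_option autoImplicit false

namespace Pool.Agent.Helper36.TS

open Pool.Agent.Helper84.TS

theorem max3 (x : ℝ) : (max x 0) ^ 3 = x ^ 3 + (max (-x) 0) ^ 3 := by
  rcases le_total 0 x with h | h
  · rw [max_eq_left h, max_eq_right (by linarith)]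
    ring
  · rw [max_eq_right h, max_eq_left (by linarith)]
    ring

/-- **The volume of a far cell** (`w ≤ 1`): `w (1 - al)(1 - be) - w³/3` and two cubes of positive
entries -/
theorem far_formula {i j k l : Fin 4} {v : Fin 4 → ℝ} (hv : IsCell i v) (h : [i, j, k, l].Nodup)
    (hf : 1 ≤ -v j) : fcl i v = (2 + v j) * (1 - (v l + (v i - 1))) * (1 - (v k + (v i - 1)))
      - (2 + v j) ^ 3 / 3 + ((max (-v l) 0) ^ 3 + (max (-v k) 0) ^ 3) / 3 := by
  have a := cell_lin hv h
  have e : v i = -(v j + v k + v l) := by linarith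
  rw [fcl_eq h v, ff, neg_neg, neg_neg, neg_neg, max3 (v l), max3 (v k),
    max_eq_right (by linarith : v j ≤ 0), max_eq_left (by linarith : 0 ≤ -v j - 1),
    max_eq_right (by linarith : -v k - 1 ≤ 0), max_eq_right (by linarith : -v l - 1 ≤ 0), e]
  ring

/-- the volume of a cell whose entry in the column `j` is `2 - w ≤ 1` -/
theorem near_formula {i j k l : Fin 4} {v : Fin 4 → ℝ} (hv : IsCell i v) (h : [i, j, k, l].Nodup)
    (h1 : -v j ≤ 1) (h2 : v j ≤ 0) (h3 : -v k ≤ 1) (h4 : -v l ≤ 1) :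
    fcl i v = (2 + v j) * (1 - (v l + (v i - 1))) * (1 - (v k + (v i - 1)))
      - (2 + v j) ^ 3 / 3 + ((max (-v l) 0) ^ 3 + (max (-v k) 0) ^ 3) / 3
      - (2 - v i) * (1 + v j) ^ 2 := by
  have a := cell_lin hv h
  have e : v i = -(v j + v k + v l) := by linarith
  rw [fcl_eq h v, ff, neg_neg, neg_neg, neg_neg, max3 (v l), max3 (v k),
    max_eq_right (by linarith : v j ≤ 0), max_eq_right (by linarith : -v j - 1 ≤ 0),
    max_eq_right (by linarith : -v k - 1 ≤ 0), max_eq_right (by linarith : -v l - 1 ≤ 0), e]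
  ring

/-- the hat form: `X = -v j - 1 ≥ 0`, `D = 2 - v i`, `r^ = v k + v i - 1`, `s^ = v l + v i - 1` -/
theorem hat_formula {i j k l : Fin 4} {v : Fin 4 → ℝ} (hv : IsCell i v) (h : [i, j, k, l].Nodup)
    (hf : 1 ≤ -v j) : fcl i v = (2 - v i) * (1 - (v k + (v i - 1))) * (1 - (v l + (v i - 1)))
      - (2 - v i) ^ 3 / 3 + ((max (v k) 0) ^ 3 + (max (v l) 0) ^ 3) / 3 := by
  have a := cell_lin hv h
  have e : v i = -(v j + v k + v l) := by linarith
  rw [fcl_eq h v, ff, neg_neg, neg_neg, neg_neg,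
    max_eq_right (by linarith : v j ≤ 0), max_eq_left (by linarith : 0 ≤ -v j - 1),
    max_eq_right (by linarith : -v k - 1 ≤ 0), max_eq_right (by linarith : -v l - 1 ≤ 0), e]
  ring

/-- all the bounds for a far cell -/
theorem far_bounds {i j k l : Fin 4} {v : Fin 4 → ℝ} (hv : IsCell i v) (h : [i, j, k, l].Nodup)
    (hf : 1 ≤ -v j) : 0 < 2 + v j ∧ 2 + v j ≤ 1 ∧ 0 ≤ v i - 1 ∧ v i - 1 < 1 ∧
      v l + (v i - 1) < 1 ∧ v k + (v i - 1) < 1 ∧
      (v l + (v i - 1)) + (v k + (v i - 1)) = 1 - (2 + v j) + (v i - 1) ∧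
      (v i - 1) - (2 + v j) < v l + (v i - 1) ∧ (v i - 1) - (2 + v j) < v k + (v i - 1) := by
  have a := cell_lin hv h
  refine ⟨?_, ?_, ?_, ?_, ?_, ?_, ?_, ?_, ?_⟩ <;> linarith

/-- **Kinds A and B**: a far cell `v = (i; j)` and a cell `w` of class `k ≠ i, j` whose entry in
the column `j` is at most the one of `v` (for instance a main cell). Kind A: `q^k_j ≤ al + d_k`;
kind B: `q^k_i ≥ 1 - d_F`. -/
theorem kind_iff {i j k l : Fin 4} {v w : Fin 4 → ℝ} (hv : IsCell i v) (hw : IsCell k w)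
    (h : [i, j, k, l].Nodup) (hle : -w j ≤ -v j) :
    Sep v w ↔ -w j ≤ (v l + (v i - 1)) + (w k - 1) ∨ 1 - (v i - 1) ≤ -w i := by
  have h' : [i, k, j, l].Nodup := by
    clear hle hv hw
    revert h
    revert i j k l
    decide
  have b := cell_lin hw (swap_nodup h')
  rw [sep_min hv hw h', min_eq_right hle]
  constructor
  · intro hs
    rcases min_cases (-v l) (-w l) with ⟨e2, -⟩ | ⟨e2, -⟩ <;> rw [e2] at hs
    · left; linarith
    · right; linarith
  · intro hs
    have a1 := min_le_left (-v l) (-w l)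
    have a2 := min_le_right (-v l) (-w l)
    rcases hs with hs | hs <;> linarith

/-- kind B in the other coordinates: `q^k_j + q^k_l ≤ d_F + d_k` -/
theorem kindB_iff {i j k l : Fin 4} {w : Fin 4 → ℝ} (hw : IsCell k w)
    (h : [i, j, k, l].Nodup) (d : ℝ) : 1 - d ≤ -w i ↔ -w j + -w l ≤ d + (w k - 1) := by
  have h' : [k, i, j, l].Nodup := by
    clear hw
    revert h
    revert i j k l
    decide
  have b := cell_lin hw h'
  constructor <;> intro hs <;> linarith

/-- a far cell `(i; j)` is compatible with every cell of class `j` -/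
theorem far_target {i j : Fin 4} {v w : Fin 4 → ℝ} (hv : IsCell i v) (hw : IsCell j w)
    (hij : i ≠ j) (hf : 1 ≤ -v j) : Sep v w := by
  obtain ⟨k, l, h⟩ := exists_rest2 hij
  have := hw.one
  exact (sep_iff hv hw h).2 (Or.inl (by linarith))

/-- **Own**: the main cell `v` and a far cell `w = (i; j)` of the same class:
`w ≤ -q^i_j + (d_i - d_F)⁺` -/
theorem own {i j : Fin 4} {v w : Fin 4 → ℝ} (hv : IsCell i v) (hw : IsCell i w)
    (hs : Sep v w) (hj : j ≠ i) (hm : ∀ m, m ≠ i → -v m ≤ 1) (hf : 1 < -w j) :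
    2 + w j ≤ v j + max (v i - w i) 0 := by
  have := (sep_main_far hv hw hs hj hm hf).1
  linarith

/-- two far cells of one column, classes `i` and `k`: one of the two cells has a large entry off
the column -/
theorem far_col {i j k l : Fin 4} {v w : Fin 4 → ℝ} (hv : IsCell i v) (hw : IsCell k w)
    (h : [i, j, k, l].Nodup) (h1 : 1 ≤ -v j) (h2 : 1 ≤ -w j) (hs : Sep v w) :
    1 - (v i - 1) - (w k - 1) ≤ max (v l) (w l) := by
  have h' : [i, k, j, l].Nodup := by
    clear hv hw hs h1 h2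
    revert h
    revert i j k l
    decide
  have e := (sep_min hv hw h').1 hs
  have e1 : 1 ≤ min (-v j) (-w j) := le_min h1 h2
  have e2 : min (-v l) (-w l) = -max (v l) (w l) := min_neg_neg _ _
  rw [e2] at e
  linarith

end Pool.Agent.Helper36.TS
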