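import Pool.Agent.Helper56.TS.Vol
import Pool.Agent.Helper53.TS.Main

/-!
# From the finite-dimensional problem to the local problem for the cuboctahedron
-/

set_option autoImplicit false

namespace Pool.Agent.Helper36.TS

open MeasureTheory
open Pool.Agent.Helper56.TS Pool.Agent.Helper53.TS Pool.Agent.Helper84.TS
open Pool.Agent.Helper69.MD Pool.Agent.Helper59.Pack
open scoped ENNReal Pointwise

theorem mainLe : MainLe := fun _ _ _ ha0 hb0 ha hb hc h1 _ => main_le ha0 hb0 ha hb hc h1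

/-- the volume of a cell -/
theorem vol_cell (i : Fin 4) (y : Fin 3 → ℝ) (hy : IsCell i (z4 y)) :
    volume (DD ∩ (y +ᵥ DD)) ≤ ENNReal.ofReal (fcl i (z4 y)) :=
  vol_cell_of_main mainLe i y hy

theorem sum_z4_zero (y : Fin 3 → ℝ) : ∑ i, z4 y i = 0 := by
  rw [Fin.sum_univ_four]
  change y 0 + y 1 + y 2 + -(y 0 + y 1 + y 2) = 0
  ring

theorem z4_injective : Function.Injective z4 := by
  intro y y' h
  ext i
  fin_cases i
  · exact congrFun h 0
  · exact congrFun h 1
  · exact congrFun h 2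

theorem z4_sub (y y' : Fin 3 → ℝ) (i : Fin 4) : z4 (y - y') i = z4 y i - z4 y' i := by
  fin_cases i
  · rfl
  · rfl
  · rfl
  · change -((y 0 - y' 0) + (y 1 - y' 1) + (y 2 - y' 2)) =
      -(y 0 + y 1 + y 2) - -(y' 0 + y' 1 + y' 2)
    ring

/-- a far cell covers nothing -/
theorem vol_far {y : Fin 3 → ℝ} (h : 2 ≤ ∑ m, max (z4 y m) 0) :
    volume (DD ∩ (y +ᵥ DD)) = 0 := by
  have : DD ∩ (y +ᵥ DD) = ∅ := by
    rw [Set.eq_empty_iff_forall_notMem]
    rintro z ⟨h1, h2⟩
    rw [mem_vadd_DD, ← DD_neg] at h2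
    have h1' : ∑ i, max (z4 z i) 0 < 1 := h1
    have h2' : ∑ i, max (z4 (-(z - y)) i) 0 < 1 := h2
    have h3 : ∑ m, max (z4 y m) 0 ≤
        ∑ i, (max (z4 z i) 0 + max (z4 (-(z - y)) i) 0) := by
      refine Finset.sum_le_sum fun m _ => ?_
      have e : z4 y m = z4 z m + z4 (-(z - y)) m := by
        rw [neg_sub, z4_sub]
        ring
      rw [e]
      refine max_le (add_le_add (le_max_left _ _) (le_max_left _ _)) ?_
      exact add_nonneg (le_max_right _ _) (le_max_right _ _)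
    rw [Finset.sum_add_distrib] at h3
    linarith
  rw [this, measure_empty]

/-- **The finite-dimensional problem gives the local problem.** -/
theorem loc_of_fd {M : ℝ} (h : FD M) : Loc M := by
  classical
  intro Y h1 h2
  set c : (Fin 4 → ℝ) → Fin 4 := fun v => if h : ∃ i, 1 ≤ v i then h.choose else 0 with hc
  have hc1 : ∀ v : Fin 4 → ℝ, (∃ i, 1 ≤ v i) → 1 ≤ v (c v) := by
    intro v hv
    rw [hc]
    simp only [dif_pos hv]
    exact hv.choose_spec
  set Y' : Finset (Fin 3 → ℝ) := Y.filter fun y => ∑ m, max (z4 y m) 0 < 2 with hY'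
  have hcell : ∀ y ∈ Y', IsCell (c (z4 y)) (z4 y) := by
    intro y hy
    rw [hY', Finset.mem_filter] at hy
    exact ⟨sum_z4_zero y, hc1 _ (h1 y hy.1), hy.2⟩
  set Y'' : Finset (Fin 3 → ℝ) := Y'.filter fun y => 0 ≤ fcl (c (z4 y)) (z4 y) with hY''
  have e1 : ∑ y ∈ Y, volume (DD ∩ (y +ᵥ DD)) = ∑ y ∈ Y', volume (DD ∩ (y +ᵥ DD)) := by
    refine (Finset.sum_subset (Finset.filter_subset _ _) ?_).symm
    intro y hy hy'
    refine vol_far ?_
    by_contra hcon
    push Not at hcon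
    exact hy' (Finset.mem_filter.2 ⟨hy, hcon⟩)
  have e2 : ∑ y ∈ Y', volume (DD ∩ (y +ᵥ DD)) ≤
      ∑ y ∈ Y', ENNReal.ofReal (fcl (c (z4 y)) (z4 y)) :=
    Finset.sum_le_sum fun y hy => vol_cell _ y (hcell y hy)
  have e3 : ∑ y ∈ Y', ENNReal.ofReal (fcl (c (z4 y)) (z4 y)) =
      ∑ y ∈ Y'', ENNReal.ofReal (fcl (c (z4 y)) (z4 y)) := by
    refine (Finset.sum_subset (Finset.filter_subset _ _) ?_).symm
    intro y hy hy'
    rw [ENNReal.ofReal_eq_zero]
    by_contra hcon
    push Not at hcon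
    exact hy' (Finset.mem_filter.2 ⟨hy, hcon.le⟩)
  rw [e1]
  refine e2.trans ?_
  rw [e3, ← ENNReal.ofReal_sum_of_nonneg (fun y hy => (Finset.mem_filter.1 hy).2)]
  refine ENNReal.ofReal_le_ofReal ?_
  have h3 := h (Y''.image z4) c (by
    intro v hv
    obtain ⟨y, hy, rfl⟩ := Finset.mem_image.1 hv
    exact hcell y (Finset.mem_filter.1 hy).1) (by
    intro v hv w hw hne
    obtain ⟨y, hy, rfl⟩ := Finset.mem_image.1 hv
    obtain ⟨y', hy', rfl⟩ := Finset.mem_image.1 hw
    have m1 := (Finset.mem_filter.1 (Finset.mem_filter.1 hy).1).1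
    have m2 := (Finset.mem_filter.1 (Finset.mem_filter.1 hy').1).1
    have h4 := h2 y m1 y' m2 (fun e => hne (by rw [e]))
    simp only [z4_sub] at h4
    exact h4)
  rwa [Finset.sum_image (fun a _ b _ e => z4_injective e)] at h3

/-- the density from the finite-dimensional problem -/
theorem tstar_tet_of_fd {M : ℝ} (hM0 : 0 ≤ M) (hM : M < 20 / 3) (h : FD M) :
    deltaTstar tet ≤ ENNReal.ofReal ((4 / 3) / (10 / 3 - M / 2)) :=
  tstar_tet_le hM0 hM (loc_of_fd h)

end Pool.Agent.Helper36.TS
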