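import Pool.Agent.Helper23.TS.Row

/-!
# The Lagrangian for a family with four main cells: the columns decouple
-/

set_option autoImplicit false

namespace Pool.Agent.Helper36.TS

open Pool.Agent.Helper84.TS Pool.Agent.Helper23.TS

/-- the cells with entry `> 1` in the column `m` -/
noncomputable def farS (Y : Finset (Fin 4 → ℝ)) (c : (Fin 4 → ℝ) → Fin 4) (m : Fin 4) :
    Finset (Fin 4 → ℝ) :=
  Y.filter fun v => big (c v) v = m ∧ c v ≠ m

/-- the volume of these cells -/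
noncomputable def far (Y : Finset (Fin 4 → ℝ)) (c : (Fin 4 → ℝ) → Fin 4) (m : Fin 4) : ℝ :=
  ∑ v ∈ farS Y c m, fcl (c v) v

/-- the column `m` with the classes `a`, `b`, `e` -/
noncomputable def colv (ν : Fin 4 → ℝ) (k : Fin 4 → Fin 4 → ℝ) (M : Fin 4 → Fin 4 → ℝ)
    (m a b e : Fin 4) : ℝ :=
  gg (ν a) (-M a m) + gg (ν b) (-M b m) + gg (ν e) (-M e m) - k a b * min (-M a m) (-M b m)
    - k a e * min (-M a m) (-M e m) - k b e * min (-M b m) (-M e m)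

theorem mem_farS {Y : Finset (Fin 4 → ℝ)} {c : (Fin 4 → ℝ) → Fin 4} {m : Fin 4} {v : Fin 4 → ℝ} :
    v ∈ farS Y c m ↔ v ∈ Y ∧ big (c v) v = m ∧ c v ≠ m := by
  rw [farS, Finset.mem_filter]

/-- a far cell of the column `m` has entry `> 1` there -/
theorem farS_gt {Y : Finset (Fin 4 → ℝ)} {c : (Fin 4 → ℝ) → Fin 4} {m : Fin 4} {v : Fin 4 → ℝ}
    (h : v ∈ farS Y c m) : 1 < -v m := by
  obtain ⟨-, h2, h3⟩ := mem_farS.1 h
  have := big_far (i := c v) (v := v) (by rw [h2]; exact h3.symm)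
  rwa [h2] at this

/-- conversely -/
theorem mem_farS_of {Y : Finset (Fin 4 → ℝ)} {c : (Fin 4 → ℝ) → Fin 4} (h : Fam Y c) {m : Fin 4}
    {v : Fin 4 → ℝ} (hv : v ∈ Y) (hm : c v ≠ m) (h1 : 1 < -v m) : v ∈ farS Y c m := by
  refine mem_farS.2 ⟨hv, ?_, hm⟩
  by_cases hb : big (c v) v = c v
  · have := big_main hb m hm.symm
    linarith
  · exact cell_far_unique (h.cell v hv) hb hm.symm (big_far hb) h1

/-- two far cells of one column have different classes -/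
theorem farS_class {Y : Finset (Fin 4 → ℝ)} {c : (Fin 4 → ℝ) → Fin 4} (h : Fam Y c) {m : Fin 4}
    {v w : Fin 4 → ℝ} (hv : v ∈ farS Y c m) (hw : w ∈ farS Y c m) (hc : c v = c w) : v = w := by
  obtain ⟨a1, a2, -⟩ := mem_farS.1 hv
  obtain ⟨b1, b2, -⟩ := mem_farS.1 hw
  exact big_inj h a1 b1 hc (by rw [a2, b2])

section

variable {Y : Finset (Fin 4 → ℝ)} {c : (Fin 4 → ℝ) → Fin 4} {M : Fin 4 → Fin 4 → ℝ}

theorem big_of_main {i : Fin 4} {v : Fin 4 → ℝ} (h : ∀ m, m ≠ i → -v m ≤ 1) : big i v = i := by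
  by_contra hne
  have := h _ hne
  linarith [big_far hne]

/-- **The decomposition**: main cells and columns -/
theorem sum_main_far (h : Fam Y c) (hmem : ∀ i, M i ∈ Y) (hcls : ∀ i, c (M i) = i)
    (hmain : ∀ i m, m ≠ i → -M i m ≤ 1) :
    ∑ v ∈ Y, fcl (c v) v = ∑ i, fcl i (M i) + ∑ m, far Y c m := by
  classical
  have e1 : ∑ v ∈ Y, fcl (c v) v =
      ∑ v ∈ Y.filter (fun v => big (c v) v = c v), fcl (c v) v +
        ∑ v ∈ Y.filter (fun v => ¬ big (c v) v = c v), fcl (c v) v :=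
    (Finset.sum_filter_add_sum_filter_not _ _ _).symm
  have e2 : ∑ v ∈ Y.filter (fun v => big (c v) v = c v), fcl (c v) v = ∑ i, fcl i (M i) := by
    have hinj : ∀ i j, M i = M j → i = j := by
      intro i j e
      rw [← hcls i, e, hcls j]
    have : Y.filter (fun v => big (c v) v = c v) = Finset.univ.image M := by
      ext v
      simp only [Finset.mem_filter, Finset.mem_image, Finset.mem_univ, true_and]
      constructor
      · rintro ⟨hv, hb⟩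
        refine ⟨c v, ?_⟩
        refine big_inj h (hmem _) hv (hcls _) ?_
        rw [hcls, hb]
        exact big_of_main (hmain _)
      · rintro ⟨i, rfl⟩
        refine ⟨hmem i, ?_⟩
        rw [hcls]
        exact big_of_main (hmain i)
    rw [this, Finset.sum_image (fun a _ b _ e => hinj a b e)]
    simp only [hcls]
  have e3 : ∑ v ∈ Y.filter (fun v => ¬ big (c v) v = c v), fcl (c v) v = ∑ m, far Y c m := by
    unfold far farS
    rw [← Finset.sum_fiberwise (s := Y.filter (fun v => ¬ big (c v) v = c v))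
      (g := fun v => big (c v) v)]
    refine Finset.sum_congr rfl fun m _ => Finset.sum_congr ?_ fun _ _ => rfl
    ext v
    simp only [Finset.mem_filter]
    constructor
    · rintro ⟨⟨h1, h2⟩, h3⟩
      exact ⟨h1, h3, fun e => h2 (by rw [h3, e])⟩
    · rintro ⟨h1, h3, h2⟩
      exact ⟨⟨h1, fun e => h2 (by rw [← h3, e])⟩, h3⟩
  rw [e1, e2, e3]

/-- **The Lagrangian.** `ν`: multipliers of the rows, `k a b` (`a < b`): multipliers of the pairs,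
`ρ m i`: what the column `m` may cost per unit of `d_i`, `ν i + θ i`: what the row `i` pays per unit
of `d_i`. -/
theorem lagr4 (h : Fam Y c) (hmem : ∀ i, M i ∈ Y) (hcls : ∀ i, c (M i) = i)
    (hmain : ∀ i m, m ≠ i → -M i m ≤ 1) {ν θ V : Fin 4 → ℝ} {k ρ : Fin 4 → Fin 4 → ℝ}
    (hk : ∀ a b, 0 ≤ k a b)
    (r0 : fcl 0 (M 0) ≤ 7 / 6 - ν 0 + gg (ν 0) (-M 0 1) + gg (ν 0) (-M 0 2) + gg (ν 0) (-M 0 3)
      - (ν 0 + θ 0) * (M 0 0 - 1))
    (r1 : fcl 1 (M 1) ≤ 7 / 6 - ν 1 + gg (ν 1) (-M 1 0) + gg (ν 1) (-M 1 2) + gg (ν 1) (-M 1 3)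
      - (ν 1 + θ 1) * (M 1 1 - 1))
    (r2 : fcl 2 (M 2) ≤ 7 / 6 - ν 2 + gg (ν 2) (-M 2 0) + gg (ν 2) (-M 2 1) + gg (ν 2) (-M 2 3)
      - (ν 2 + θ 2) * (M 2 2 - 1))
    (r3 : fcl 3 (M 3) ≤ 7 / 6 - ν 3 + gg (ν 3) (-M 3 0) + gg (ν 3) (-M 3 1) + gg (ν 3) (-M 3 2)
      - (ν 3 + θ 3) * (M 3 3 - 1))
    (c0 : colv ν k M 0 1 2 3 + far Y c 0 ≤
      V 0 + ρ 0 1 * (M 1 1 - 1) + ρ 0 2 * (M 2 2 - 1) + ρ 0 3 * (M 3 3 - 1))
    (c1 : colv ν k M 1 0 2 3 + far Y c 1 ≤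
      V 1 + ρ 1 0 * (M 0 0 - 1) + ρ 1 2 * (M 2 2 - 1) + ρ 1 3 * (M 3 3 - 1))
    (c2 : colv ν k M 2 0 1 3 + far Y c 2 ≤
      V 2 + ρ 2 0 * (M 0 0 - 1) + ρ 2 1 * (M 1 1 - 1) + ρ 2 3 * (M 3 3 - 1))
    (c3 : colv ν k M 3 0 1 2 + far Y c 3 ≤
      V 3 + ρ 3 0 * (M 0 0 - 1) + ρ 3 1 * (M 1 1 - 1) + ρ 3 2 * (M 2 2 - 1))
    (p0 : k 0 1 + k 0 2 + k 0 3 + ρ 1 0 + ρ 2 0 + ρ 3 0 ≤ ν 0 + θ 0)
    (p1 : k 0 1 + k 1 2 + k 1 3 + ρ 0 1 + ρ 2 1 + ρ 3 1 ≤ ν 1 + θ 1)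
    (p2 : k 0 2 + k 1 2 + k 2 3 + ρ 0 2 + ρ 1 2 + ρ 3 2 ≤ ν 2 + θ 2)
    (p3 : k 0 3 + k 1 3 + k 2 3 + ρ 0 3 + ρ 1 3 + ρ 2 3 ≤ ν 3 + θ 3) :
    ∑ v ∈ Y, fcl (c v) v ≤
      14 / 3 - (ν 0 + ν 1 + ν 2 + ν 3) + (V 0 + V 1 + V 2 + V 3) := by
  have hcell : ∀ i, IsCell i (M i) := by
    intro i
    have := h.cell (M i) (hmem i)
    rwa [hcls i] at this
  have hsep : ∀ i j, i ≠ j → Sep (M i) (M j) := by
    intro i j hij
    refine h.sep _ (hmem i) _ (hmem j) fun e => hij ?_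
    rw [← hcls i, e, hcls j]
  have hd : ∀ i, 0 ≤ M i i - 1 := fun i => by linarith [(hcell i).one]
  rw [sum_main_far h hmem hcls hmain, Fin.sum_univ_four, Fin.sum_univ_four]
  have s01 := (sep_min (hcell 0) (hcell 1) (k := 2) (l := 3) (by decide)).1 (hsep 0 1 (by decide))
  have s02 := (sep_min (hcell 0) (hcell 2) (k := 1) (l := 3) (by decide)).1 (hsep 0 2 (by decide))
  have s03 := (sep_min (hcell 0) (hcell 3) (k := 1) (l := 2) (by decide)).1 (hsep 0 3 (by decide))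
  have s12 := (sep_min (hcell 1) (hcell 2) (k := 0) (l := 3) (by decide)).1 (hsep 1 2 (by decide))
  have s13 := (sep_min (hcell 1) (hcell 3) (k := 0) (l := 2) (by decide)).1 (hsep 1 3 (by decide))
  have s23 := (sep_min (hcell 2) (hcell 3) (k := 0) (l := 1) (by decide)).1 (hsep 2 3 (by decide))
  have t01 := mul_le_mul_of_nonneg_left s01 (hk 0 1)
  have t02 := mul_le_mul_of_nonneg_left s02 (hk 0 2)
  have t03 := mul_le_mul_of_nonneg_left s03 (hk 0 3)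
  have t12 := mul_le_mul_of_nonneg_left s12 (hk 1 2)
  have t13 := mul_le_mul_of_nonneg_left s13 (hk 1 3)
  have t23 := mul_le_mul_of_nonneg_left s23 (hk 2 3)
  have q0 := mul_le_mul_of_nonneg_right p0 (hd 0)
  have q1 := mul_le_mul_of_nonneg_right p1 (hd 1)
  have q2 := mul_le_mul_of_nonneg_right p2 (hd 2)
  have q3 := mul_le_mul_of_nonneg_right p3 (hd 3)
  simp only [colv] at c0 c1 c2 c3
  nlinarith [r0, r1, r2, r3, c0, c1, c2, c3, t01, t02, t03, t12, t13, t23, q0, q1, q2, q3]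

end

end Pool.Agent.Helper36.TS
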