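import Pool.Agent.Helper84.TS.Fd

/-!
# The structure of a family of cells
-/

set_option autoImplicit false

namespace Pool.Agent.Helper36.TS

open Pool.Agent.Helper84.TS

/-! ### Permutations of the four coordinates -/

theorem univ_eq4 : ∀ {i j k l : Fin 4}, [i, j, k, l].Nodup →
    (Finset.univ : Finset (Fin 4)) = {i, j, k, l} := by
  decide

theorem sum4 {i j k l : Fin 4} (h : [i, j, k, l].Nodup) (f : Fin 4 → ℝ) :
    ∑ m, f m = f i + f j + f k + f l := by
  have h1 : i ∉ ({j, k, l} : Finset (Fin 4)) := by revert i j k l; decide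
  have h2 : j ∉ ({k, l} : Finset (Fin 4)) := by revert i j k l; decide
  have h3 : k ∉ ({l} : Finset (Fin 4)) := by revert i j k l; decide
  rw [univ_eq4 h, Finset.sum_insert h1, Finset.sum_insert h2, Finset.sum_insert h3,
    Finset.sum_singleton]
  ring

theorem exists_rest2 : ∀ {i j : Fin 4}, i ≠ j → ∃ k l, [i, j, k, l].Nodup := by
  decide

theorem exists_rest3 : ∀ i : Fin 4, ∃ j k l, [i, j, k, l].Nodup := by
  decide

theorem exists_rest1 : ∀ {i j k : Fin 4}, [i, j, k].Nodup → ∃ l, [i, j, k, l].Nodup := by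
  decide

theorem mem4 : ∀ {i j k l : Fin 4}, [i, j, k, l].Nodup → ∀ m, m = i ∨ m = j ∨ m = k ∨ m = l := by
  decide

theorem nodup_ne : ∀ {i j k l : Fin 4}, [i, j, k, l].Nodup → j ≠ i ∧ k ≠ i ∧ l ≠ i := by
  decide

theorem swap_nodup : ∀ {i j k l : Fin 4}, [i, j, k, l].Nodup → [j, i, k, l].Nodup := by
  decide

/-- the volume of a cell in any order of its row -/
theorem fcl_eq {i j k l : Fin 4} (h : [i, j, k, l].Nodup) (v : Fin 4 → ℝ) :
    fcl i v = ff (v i - 1) (-v j) (-v k) (-v l) := by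
  have key : fcl i v = 7 / 6 - 3 / 2 * (v i - 1) + (v i - 1) ^ 2 / 2 - (v i - 1) ^ 3 / 6
      - (1 - (v i - 1)) * (∑ m, (v m) ^ 2 - (v i) ^ 2) / 2
      + (∑ m, (max (v m) 0) ^ 3 - (max (v i) 0) ^ 3) / 3
      + (1 - (v i - 1)) * (∑ m, (max (-v m - 1) 0) ^ 2 - (max (-v i - 1) 0) ^ 2) := by
    clear h
    fin_cases i <;> simp only [fcl, ff, Fin.sum_univ_four, Fin.isValue, neg_neg, Fin.zero_eta,
      Fin.mk_one, Fin.reduceFinMk] <;> ring
  rw [key, sum4 h, sum4 h, sum4 h]
  simp only [ff, neg_neg]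
  ring

/-! ### One cell -/

/-- all the linear consequences -/
theorem cell_lin {i j k l : Fin 4} {v : Fin 4 → ℝ} (hv : IsCell i v) (h : [i, j, k, l].Nodup) :
    v i + v j + v k + v l = 0 ∧ 1 ≤ v i ∧ v i < 2 ∧ v i + v j < 2 ∧ v i + v k < 2 ∧
      v i + v l < 2 ∧ -2 < v j ∧ -2 < v k ∧ -2 < v l := by
  obtain ⟨h1, h2, h3⟩ := hv
  rw [sum4 h] at h1 h3
  have a0 := le_max_left (v i) 0
  have a1 := le_max_left (v j) 0
  have a2 := le_max_left (v k) 0
  have a3 := le_max_left (v l) 0
  have b0 := le_max_right (v i) 0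
  have b1 := le_max_right (v j) 0
  have b2 := le_max_right (v k) 0
  have b3 := le_max_right (v l) 0
  exact ⟨h1, h2, by linarith, by linarith, by linarith, by linarith, by linarith, by linarith,
    by linarith⟩

/-- the converse -/
theorem cell_of_lin {i j k l : Fin 4} {v : Fin 4 → ℝ} (h : [i, j, k, l].Nodup)
    (hs : v i + v j + v k + v l = 0) (h1 : 1 ≤ v i) (hi : v i < 2) (hj : v i + v j < 2)
    (hk : v i + v k < 2) (hl : v i + v l < 2) (gj : -2 < v j) (gk : -2 < v k) (gl : -2 < v l) :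
    IsCell i v := by
  refine ⟨by rw [sum4 h]; exact hs, h1, ?_⟩
  rw [sum4 h, max_eq_left (by linarith : 0 ≤ v i)]
  rcases max_cases (v j) 0 with ⟨d1, -⟩ | ⟨d1, -⟩ <;>
    rcases max_cases (v k) 0 with ⟨d2, -⟩ | ⟨d2, -⟩ <;>
    rcases max_cases (v l) 0 with ⟨d3, -⟩ | ⟨d3, -⟩ <;> rw [d1, d2, d3] <;> linarith

/-- the class of a cell is unique -/
theorem cell_class {i j : Fin 4} {v : Fin 4 → ℝ} (hv : IsCell i v) (hw : IsCell j v) : i = j := by
  by_contra hne
  obtain ⟨k, l, h⟩ := exists_rest2 hne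
  have := cell_lin hv h
  have := hw.one
  linarith

/-- at most one entry of the row exceeds `1` -/
theorem cell_far_unique {i j k : Fin 4} {v : Fin 4 → ℝ} (hv : IsCell i v) (hj : j ≠ i)
    (hk : k ≠ i) (h1 : 1 < -v j) (h2 : 1 < -v k) : j = k := by
  by_contra hne
  obtain ⟨l, h⟩ := exists_rest1 (i := i) (j := j) (k := k) (by
    simp [hj.symm, hk.symm, hne])
  have := cell_lin hv h
  linarith

/-! ### Two cells -/

theorem sep_comm {v w : Fin 4 → ℝ} (hv : ∑ m, v m = 0) (hw : ∑ m, w m = 0) (h : Sep v w) :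
    Sep w v := by
  unfold Pool.Agent.Helper84.TS.Sep at h ⊢
  have : ∑ m, max (w m - v m) 0 = ∑ m, max (v m - w m) 0 := by
    have h1 : ∀ m, max (w m - v m) 0 = max (v m - w m) 0 - (v m - w m) := by
      intro m
      rcases le_total (v m) (w m) with h | h
      · rw [max_eq_left (by linarith), max_eq_right (by linarith)]; ring
      · rw [max_eq_right (by linarith), max_eq_left (by linarith)]; ring
    simp only [h1, Finset.sum_sub_distrib, hv, hw]
    ring
  rw [this]
  exact h

/-- **Different classes.** -/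
theorem sep_iff {i j k l : Fin 4} {v w : Fin 4 → ℝ} (hv : IsCell i v) (hw : IsCell j w)
    (h : [i, j, k, l].Nodup) : Sep v w ↔ 2 ≤ w j - v j ∨ 2 ≤ v i - w i ∨
      2 ≤ (v i - w i) + (v k - w k) ∨ 2 ≤ (v i - w i) + (v l - w l) := by
  have h' := swap_nodup h
  have a := cell_lin hv h
  have b := cell_lin hw h'
  unfold Pool.Agent.Helper84.TS.Sep
  rw [sum4 h, max_eq_left (by linarith : 0 ≤ v i - w i), max_eq_right (by linarith : v j - w j ≤ 0)]
  constructor
  · intro hs
    rcases max_cases (v k - w k) 0 with ⟨d2, -⟩ | ⟨d2, -⟩ <;>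
      rcases max_cases (v l - w l) 0 with ⟨d3, -⟩ | ⟨d3, -⟩ <;> rw [d2, d3] at hs
    · left; linarith
    · right; right; left; linarith
    · right; right; right; linarith
    · right; left; linarith
  · intro hs
    have a2 := le_max_left (v k - w k) 0
    have a3 := le_max_left (v l - w l) 0
    have b2 := le_max_right (v k - w k) 0
    have b3 := le_max_right (v l - w l) 0
    rcases hs with hs | hs | hs | hs <;> linarith

/-- **The same class.** -/
theorem sep_same {i j k l : Fin 4} {v w : Fin 4 → ℝ} (hv : IsCell i v) (hw : IsCell i w)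
    (h : [i, j, k, l].Nodup) : Sep v w ↔
      2 ≤ (v j - w j) + max (v i - w i) 0 ∨ 2 ≤ (w j - v j) + max (w i - v i) 0 ∨
      2 ≤ (v k - w k) + max (v i - w i) 0 ∨ 2 ≤ (w k - v k) + max (w i - v i) 0 ∨
      2 ≤ (v l - w l) + max (v i - w i) 0 ∨ 2 ≤ (w l - v l) + max (w i - v i) 0 := by
  have a := cell_lin hv h
  have b := cell_lin hw h
  have e : max (w i - v i) 0 = max (v i - w i) 0 - (v i - w i) := by
    rcases le_total (v i) (w i) with h | h
    · rw [max_eq_left (by linarith), max_eq_right (by linarith)]; ring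
    · rw [max_eq_right (by linarith), max_eq_left (by linarith)]; ring
  unfold Pool.Agent.Helper84.TS.Sep
  rw [sum4 h, e]
  have c1 : max (v i - w i) 0 < 1 := max_lt (by linarith) (by norm_num)
  have c2 : max (v i - w i) 0 - (v i - w i) < 1 := by
    rw [← e]
    exact max_lt (by linarith) (by norm_num)
  constructor
  · intro hs
    rcases max_cases (v j - w j) 0 with ⟨d1, -⟩ | ⟨d1, -⟩ <;>
      rcases max_cases (v k - w k) 0 with ⟨d2, -⟩ | ⟨d2, -⟩ <;>
      rcases max_cases (v l - w l) 0 with ⟨d3, -⟩ | ⟨d3, -⟩ <;> rw [d1, d2, d3] at hs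
    · exfalso; linarith
    · right; right; right; right; right; linarith
    · right; right; right; left; linarith
    · left; linarith
    · right; left; linarith
    · right; right; left; linarith
    · right; right; right; right; left; linarith
    · exfalso; linarith
  · intro hs
    have a1 := le_max_left (v j - w j) 0
    have a2 := le_max_left (v k - w k) 0
    have a3 := le_max_left (v l - w l) 0
    have b1 := le_max_right (v j - w j) 0
    have b2 := le_max_right (v k - w k) 0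
    have b3 := le_max_right (v l - w l) 0
    rcases hs with hs | hs | hs | hs | hs | hs <;> linarith

/-- two cells of one class: in some entry of the row they differ by much; the larger of the two
entries exceeds `1`, the other one is small -/
theorem sep_same_far {i : Fin 4} {v w : Fin 4 → ℝ} (hv : IsCell i v) (hw : IsCell i w)
    (hs : Sep v w) : ∃ m, m ≠ i ∧
      ((2 ≤ (v m - w m) + max (v i - w i) 0 ∧ 1 < -w m ∧ -v m < max (v i - w i) 0) ∨
      (2 ≤ (w m - v m) + max (w i - v i) 0 ∧ 1 < -v m ∧ -w m < max (w i - v i) 0)) := by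
  obtain ⟨j, k, l, h⟩ := exists_rest3 i
  have a := cell_lin hv h
  have b := cell_lin hw h
  rw [sep_same hv hw h] at hs
  have hj := nodup_ne h
  have e1 : max (v i - w i) 0 ≤ v i - 1 := max_le (by linarith) (by linarith)
  have e2 : max (w i - v i) 0 ≤ w i - 1 := max_le (by linarith) (by linarith)
  rcases hs with hs | hs | hs | hs | hs | hs
  · exact ⟨j, hj.1, Or.inl ⟨hs, by linarith, by linarith⟩⟩
  · exact ⟨j, hj.1, Or.inr ⟨hs, by linarith, by linarith⟩⟩
  · exact ⟨k, hj.2.1, Or.inl ⟨hs, by linarith, by linarith⟩⟩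
  · exact ⟨k, hj.2.1, Or.inr ⟨hs, by linarith, by linarith⟩⟩
  · exact ⟨l, hj.2.2, Or.inl ⟨hs, by linarith, by linarith⟩⟩
  · exact ⟨l, hj.2.2, Or.inr ⟨hs, by linarith, by linarith⟩⟩

/-- a main cell and a far cell `(i; j)` of one class -/
theorem sep_main_far {i j : Fin 4} {v w : Fin 4 → ℝ} (hv : IsCell i v) (hw : IsCell i w)
    (hs : Sep v w) (hj : j ≠ i) (hm : ∀ m, m ≠ i → -v m ≤ 1) (hf : 1 < -w j) :
    2 ≤ (v j - w j) + max (v i - w i) 0 ∧ -v j < max (v i - w i) 0 := by
  obtain ⟨m, hmi, h | h⟩ := sep_same_far hv hw hs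
  · have : m = j := cell_far_unique hw hmi hj h.2.1 hf
    subst this
    exact ⟨h.1, h.2.2⟩
  · have := hm m hmi
    linarith [h.2.1]

/-- two far cells of one class in different columns: one of the two entries differs by much -/
theorem sep_far_far {i j k : Fin 4} {v w : Fin 4 → ℝ} (hv : IsCell i v) (hw : IsCell i w)
    (hs : Sep v w) (hj : j ≠ i) (hk : k ≠ i) (h1 : 1 < -v j) (h2 : 1 < -w k) :
    (2 ≤ (w j - v j) + max (w i - v i) 0 ∧ -w j < max (w i - v i) 0) ∨
      (2 ≤ (v k - w k) + max (v i - w i) 0 ∧ -v k < max (v i - w i) 0) := by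
  obtain ⟨m, hmi, h | h⟩ := sep_same_far hv hw hs
  · have : m = k := cell_far_unique hw hmi hk h.2.1 h2
    subst this
    exact Or.inr ⟨h.1, h.2.2⟩
  · have : m = j := cell_far_unique hv hmi hj h.2.1 h1
    subst this
    exact Or.inl ⟨h.1, h.2.2⟩

/-- at most one main cell in a class -/
theorem main_unique {i : Fin 4} {v w : Fin 4 → ℝ} (hv : IsCell i v) (hw : IsCell i w)
    (hm : ∀ m, m ≠ i → -v m ≤ 1) (hm' : ∀ m, m ≠ i → -w m ≤ 1) : ¬ Sep v w := by
  intro hs
  obtain ⟨m, hmi, h | h⟩ := sep_same_far hv hw hs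
  · linarith [hm' m hmi, h.2.1]
  · linarith [hm m hmi, h.2.1]

/-- at most one far cell `(i; j)` -/
theorem far_unique {i j : Fin 4} {v w : Fin 4 → ℝ} (hv : IsCell i v) (hw : IsCell i w)
    (hj : j ≠ i) (h1 : 1 < -v j) (h2 : 1 < -w j) : ¬ Sep v w := by
  intro hs
  have e1 : max (v i - w i) 0 ≤ 1 := by
    obtain ⟨k, l, h⟩ := exists_rest2 hj.symm
    have := cell_lin hv h
    have := cell_lin hw h
    exact max_le (by linarith) (by norm_num)
  have e2 : max (w i - v i) 0 ≤ 1 := by
    obtain ⟨k, l, h⟩ := exists_rest2 hj.symm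
    have := cell_lin hv h
    have := cell_lin hw h
    exact max_le (by linarith) (by norm_num)
  rcases sep_far_far hv hw hs hj hj h1 h2 with h | h
  · linarith [h.2]
  · linarith [h.2]

/-! ### Four plain cells -/

/-- **Four cells of different classes: one of them points to another one.** -/
theorem four_plain {A : Fin 4 → Fin 4 → ℝ} (hA : ∀ i, IsCell i (A i))
    (hs : ∀ i j, i ≠ j → Sep (A i) (A j)) : ∃ i j, i ≠ j ∧ 2 ≤ A j j - A i j := by
  by_contra hcon
  push Not at hcon
  have key : ∀ i j k l : Fin 4, [i, j, k, l].Nodup →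
      2 ≤ (A i i - A j i) + (A i k - A j k) ∨ 2 ≤ (A i i - A j i) + (A i l - A j l) := by
    intro i j k l h
    have hij : i ≠ j := by revert i j k l; decide
    have := (sep_iff (hA i) (hA j) h).1 (hs i j hij)
    have c1 := hcon i j hij
    have c2 := hcon j i hij.symm
    rcases this with h | h | h | h
    · linarith
    · linarith
    · exact Or.inl h
    · exact Or.inr h
  have a0 := cell_lin (hA 0) (by decide : [(0 : Fin 4), 1, 2, 3].Nodup)
  have a1 := cell_lin (hA 1) (by decide : [(1 : Fin 4), 0, 2, 3].Nodup)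
  have a2 := cell_lin (hA 2) (by decide : [(2 : Fin 4), 0, 1, 3].Nodup)
  have a3 := cell_lin (hA 3) (by decide : [(3 : Fin 4), 0, 1, 2].Nodup)
  have b01 := hcon 0 1 (by decide)
  have b02 := hcon 0 2 (by decide)
  have b03 := hcon 0 3 (by decide)
  have b10 := hcon 1 0 (by decide)
  have b12 := hcon 1 2 (by decide)
  have b13 := hcon 1 3 (by decide)
  have b20 := hcon 2 0 (by decide)
  have b21 := hcon 2 1 (by decide)
  have b23 := hcon 2 3 (by decide)
  have b30 := hcon 3 0 (by decide)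
  have b31 := hcon 3 1 (by decide)
  have b32 := hcon 3 2 (by decide)
  rcases key 0 1 2 3 (by decide) with h01 | h01 <;> rcases key 0 2 1 3 (by decide) with h02 | h02 <;>
    rcases key 0 3 1 2 (by decide) with h03 | h03 <;>
    rcases key 1 2 0 3 (by decide) with h12 | h12 <;>
    rcases key 1 3 0 2 (by decide) with h13 | h13 <;>
    rcases key 2 3 0 1 (by decide) with h23 | h23 <;> linarith

/-! ### A family of cells -/

/-- a family as in `FD` -/
structure Fam (Y : Finset (Fin 4 → ℝ)) (c : (Fin 4 → ℝ) → Fin 4) : Prop where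
  cell : ∀ v ∈ Y, IsCell (c v) v
  sep : ∀ v ∈ Y, ∀ w ∈ Y, v ≠ w → Sep v w

open Classical in
/-- the type of a cell of class `i`: `i` for a main cell, `j` for a far cell `(i; j)` -/
noncomputable def big (i : Fin 4) (v : Fin 4 → ℝ) : Fin 4 :=
  if h : ∃ m, m ≠ i ∧ 1 < -v m then h.choose else i

theorem big_main {i : Fin 4} {v : Fin 4 → ℝ} (h : big i v = i) : ∀ m, m ≠ i → -v m ≤ 1 := by
  intro m hm
  by_contra hcon
  push Not at hcon
  have h1 : ∃ m, m ≠ i ∧ 1 < -v m := ⟨m, hm, hcon⟩
  rw [big, dif_pos h1] at h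
  exact h1.choose_spec.1 h

theorem big_far {i : Fin 4} {v : Fin 4 → ℝ} (h : big i v ≠ i) : 1 < -v (big i v) := by
  by_cases h1 : ∃ m, m ≠ i ∧ 1 < -v m
  · rw [big, dif_pos h1]
    exact h1.choose_spec.2
  · rw [big, dif_neg h1] at h
    exact absurd rfl h

theorem big_inj {Y : Finset (Fin 4 → ℝ)} {c : (Fin 4 → ℝ) → Fin 4} (h : Fam Y c)
    {v w : Fin 4 → ℝ} (hv : v ∈ Y) (hw : w ∈ Y) (hc : c v = c w)
    (hb : big (c v) v = big (c w) w) : v = w := by
  by_contra hne
  have hs := h.sep v hv w hw hne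
  have h1 := h.cell v hv
  have h2 := h.cell w hw
  rw [← hc] at h2 hb
  by_cases hbv : big (c v) v = c v
  · exact main_unique h1 h2 (big_main hbv) (big_main (by rw [← hb, hbv])) hs
  · refine far_unique h1 h2 hbv (big_far hbv) ?_ hs
    have := big_far (i := c v) (v := w) (by rw [← hb]; exact hbv)
    rwa [← hb] at this

/-- the volume of a cell that may be absent -/
noncomputable def fo (i : Fin 4) (o : Option (Fin 4 → ℝ)) : ℝ :=
  match o with
  | none => 0
  | some v => fcl i v

/-- **The sum over the family is the sum over the `4 + 12` possible cells**: `A i i` is the main cell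
of class `i`, `A i j` the far cell `(i; j)`. -/
theorem sum_eq {Y : Finset (Fin 4 → ℝ)} {c : (Fin 4 → ℝ) → Fin 4} (h : Fam Y c) :
    ∃ A : Fin 4 → Fin 4 → Option (Fin 4 → ℝ),
      (∀ i j v, A i j = some v → v ∈ Y ∧ c v = i ∧ big i v = j) ∧
      (∀ v ∈ Y, A (c v) (big (c v) v) = some v) ∧
      ∑ v ∈ Y, fcl (c v) v = ∑ i, ∑ j, fo i (A i j) := by
  classical
  let A : Fin 4 → Fin 4 → Option (Fin 4 → ℝ) := fun i j =>
    if h : ∃ v, v ∈ Y ∧ c v = i ∧ big i v = j then some h.choose else none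
  have hA1 : ∀ i j v, A i j = some v → v ∈ Y ∧ c v = i ∧ big i v = j := by
    intro i j v hv
    by_cases h1 : ∃ v, v ∈ Y ∧ c v = i ∧ big i v = j
    · simp only [A, dif_pos h1, Option.some.injEq] at hv
      rw [← hv]
      exact h1.choose_spec
    · simp only [A, dif_neg h1] at hv
      exact absurd hv (by simp)
  have hA2 : ∀ v ∈ Y, A (c v) (big (c v) v) = some v := by
    intro v hv
    have h1 : ∃ w, w ∈ Y ∧ c w = c v ∧ big (c v) w = big (c v) v := ⟨v, hv, rfl, rfl⟩
    simp only [A, dif_pos h1, Option.some.injEq]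
    obtain ⟨h2, h3, h4⟩ := h1.choose_spec
    exact big_inj h h2 hv h3 (by rw [h3]; exact h4)
  refine ⟨A, hA1, hA2, ?_⟩
  rw [← Fintype.sum_prod_type' (f := fun i j => fo i (A i j))]
  have e1 : ∑ v ∈ Y, fcl (c v) v =
      ∑ x ∈ Y.image (fun v => (c v, big (c v) v)), fo x.1 (A x.1 x.2) := by
    rw [Finset.sum_image]
    · refine Finset.sum_congr rfl fun v hv => ?_
      simp only [hA2 v hv, fo]
    · intro v hv w hw hvw
      simp only [Prod.mk.injEq] at hvw
      exact big_inj h hv hw hvw.1 hvw.2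
  rw [e1]
  refine Finset.sum_subset (Finset.subset_univ _) ?_
  intro x _ hx
  rcases hx2 : A x.1 x.2 with _ | v
  · rfl
  · exfalso
    obtain ⟨h1, h2, h3⟩ := hA1 _ _ _ hx2
    refine hx (Finset.mem_image.2 ⟨v, h1, ?_⟩)
    rw [h2, h3]

end Pool.Agent.Helper36.TS
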