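import Pool.Agent.Helper36.TS.Str

/-!
# The pair inequality, thirds, and the symmetry of the finite-dimensional problem
-/

set_option autoImplicit false

namespace Pool.Agent.Helper36.TS

open Pool.Agent.Helper84.TS

/-! ### The pair inequality -/

/-- **The pair inequality**: two cells of different classes are compatible iff
`min(q_k, q'_k) + min(q_l, q'_l) ≤ d + d'` -/
theorem sep_min {i j k l : Fin 4} {v w : Fin 4 → ℝ} (hv : IsCell i v) (hw : IsCell j w)
    (h : [i, j, k, l].Nodup) :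
    Sep v w ↔ min (-v k) (-w k) + min (-v l) (-w l) ≤ (v i - 1) + (w j - 1) := by
  rw [sep_iff hv hw h]
  have a := cell_lin hv h
  have b := cell_lin hw (swap_nodup h)
  constructor
  · intro hs
    have a1 := min_le_left (-v k) (-w k)
    have a2 := min_le_right (-v k) (-w k)
    have a3 := min_le_left (-v l) (-w l)
    have a4 := min_le_right (-v l) (-w l)
    rcases hs with hs | hs | hs | hs <;> linarith
  · intro hs
    rcases min_cases (-v k) (-w k) with ⟨e1, -⟩ | ⟨e1, -⟩ <;>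
      rcases min_cases (-v l) (-w l) with ⟨e2, -⟩ | ⟨e2, -⟩ <;> rw [e1, e2] at hs
    · left; linarith
    · right; right; left; linarith
    · right; right; right; linarith
    · right; left; linarith

/-! ### Thirds -/

/-- the lowest class of each column -/
theorem exists_low (M : Fin 4 → Fin 4 → ℝ) : ∃ t : Fin 4 → Fin 4, (∀ m, t m ≠ m) ∧
    ∀ m i, i ≠ m → -M (t m) m ≤ -M i m := by
  classical
  have h : ∀ m : Fin 4, ∃ j, j ≠ m ∧ ∀ i, i ≠ m → -M j m ≤ -M i m := by
    intro m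
    have hne : (Finset.univ.filter fun i : Fin 4 => i ≠ m).Nonempty := by
      revert m
      decide
    obtain ⟨j, hj, hj'⟩ := Finset.exists_min_image _ (fun i => -M i m) hne
    refine ⟨j, (Finset.mem_filter.1 hj).2, fun i hi => ?_⟩
    exact hj' i (Finset.mem_filter.2 ⟨Finset.mem_univ _, hi⟩)
  choose t h1 h2 using h
  exact ⟨t, h1, h2⟩

/-- `s_m`: the middle entry of the column `m`, the smaller one of the two entries off the lowest
class `t m` -/
noncomputable def mid (M : Fin 4 → Fin 4 → ℝ) (t : Fin 4 → Fin 4) (m : Fin 4) : ℝ :=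
  if h : (Finset.univ.filter fun i : Fin 4 => i ≠ m ∧ i ≠ t m).Nonempty then
    (Finset.univ.filter fun i : Fin 4 => i ≠ m ∧ i ≠ t m).inf' h (fun i => -M i m) else 0

theorem filt_eq : ∀ {m n a b : Fin 4}, [m, n, a, b].Nodup →
    (Finset.univ.filter fun i : Fin 4 => i ≠ m ∧ i ≠ n) = {a, b} := by
  decide

theorem mid_eq {m a b : Fin 4} (M : Fin 4 → Fin 4 → ℝ) (t : Fin 4 → Fin 4)
    (h : [m, t m, a, b].Nodup) : mid M t m = min (-M a m) (-M b m) := by
  unfold mid
  have e := filt_eq h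
  have hne : (Finset.univ.filter fun i : Fin 4 => i ≠ m ∧ i ≠ t m).Nonempty := by
    rw [e]
    exact ⟨a, by simp⟩
  rw [dif_pos hne]
  have : (Finset.univ.filter fun i : Fin 4 => i ≠ m ∧ i ≠ t m).inf' hne (fun i => -M i m) =
      ({a, b} : Finset (Fin 4)).inf' ⟨a, by simp⟩ (fun i => -M i m) := by
    congr 1
  rw [this, Finset.inf'_insert, Finset.inf'_singleton]
  exact ⟨b, by simp⟩

/-- the smallest entry of the column `m` over the two classes off `n` -/
noncomputable def am (M : Fin 4 → Fin 4 → ℝ) (t : Fin 4 → Fin 4) (m n : Fin 4) : ℝ :=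
  if t m = n then mid M t m else -M (t m) m

theorem nodup_rot : ∀ {a b m n : Fin 4}, [a, b, m, n].Nodup → [m, n, a, b].Nodup := by
  decide

theorem nodup_swap34 : ∀ {a b m n : Fin 4}, [a, b, m, n].Nodup → [a, b, n, m].Nodup := by
  decide

theorem am_eq {a b m n : Fin 4} {M : Fin 4 → Fin 4 → ℝ} {t : Fin 4 → Fin 4}
    (ht : ∀ m, t m ≠ m) (hl : ∀ m i, i ≠ m → -M (t m) m ≤ -M i m) (h : [a, b, m, n].Nodup) :
    am M t m n = min (-M a m) (-M b m) := by
  unfold am
  have h1 := nodup_rot h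
  have h2 : a ≠ m ∧ b ≠ m := by
    simp only [List.nodup_cons, List.mem_cons, List.not_mem_nil, or_false, not_or] at h
    exact ⟨h.1.2.1, h.2.1.1⟩
  by_cases hn : t m = n
  · rw [if_pos hn]
    exact mid_eq M t (by rw [hn]; exact h1)
  · rw [if_neg hn]
    rcases mem4 h1 (t m) with e | e | e | e
    · exact absurd e (ht m)
    · exact absurd e hn
    · rw [e, min_eq_left]
      have := hl m b h2.2
      rwa [e] at this
    · rw [e, min_eq_right]
      have := hl m a h2.1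
      rwa [e] at this

/-- **Thirds.** For four cells of different classes and `t m` the lowest class of the column `m`:
for complementary pairs `{a, b}`, `{m, n}` -/
theorem thirds {M : Fin 4 → Fin 4 → ℝ} {t : Fin 4 → Fin 4} (hM : ∀ i, IsCell i (M i))
    (ht : ∀ m, t m ≠ m) (hl : ∀ m i, i ≠ m → -M (t m) m ≤ -M i m) {a b m n : Fin 4}
    (h : [a, b, m, n].Nodup) (hs : Sep (M a) (M b)) :
    am M t m n + am M t n m ≤ (M a a - 1) + (M b b - 1) := by
  rw [am_eq ht hl h, am_eq ht hl (nodup_swap34 h)]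
  exact (sep_min (hM a) (hM b) h).1 hs

/-- the middle entry is at least the lowest one -/
theorem low_le_mid {M : Fin 4 → Fin 4 → ℝ} {t : Fin 4 → Fin 4}
    (ht : ∀ m, t m ≠ m) (hl : ∀ m i, i ≠ m → -M (t m) m ≤ -M i m) (m : Fin 4) :
    -M (t m) m ≤ mid M t m := by
  obtain ⟨a, b, h⟩ := exists_rest2 (ht m).symm
  rw [mid_eq M t h]
  have h2 : a ≠ m ∧ b ≠ m := by
    simp only [List.nodup_cons, List.mem_cons, List.not_mem_nil, or_false, not_or] at h
    exact ⟨fun e => h.1.2.1 e.symm, fun e => h.1.2.2 e.symm⟩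
  exact le_min (hl m a h2.1) (hl m b h2.2)

/-! ### Symmetry -/

/-- the permuted vector -/
def pv (σ : Equiv.Perm (Fin 4)) (v : Fin 4 → ℝ) : Fin 4 → ℝ := fun m => v (σ m)

theorem pv_symm (σ : Equiv.Perm (Fin 4)) (v : Fin 4 → ℝ) : pv σ.symm (pv σ v) = v := by
  ext m
  simp [pv]

theorem pv_symm' (σ : Equiv.Perm (Fin 4)) (v : Fin 4 → ℝ) : pv σ (pv σ.symm v) = v := by
  ext m
  simp [pv]

theorem pv_inj (σ : Equiv.Perm (Fin 4)) : Function.Injective (pv σ) := by
  intro v w h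
  rw [← pv_symm σ v, h, pv_symm]

theorem isCell_perm {i : Fin 4} {v : Fin 4 → ℝ} (σ : Equiv.Perm (Fin 4)) (h : IsCell i v) :
    IsCell (σ.symm i) (pv σ v) := by
  refine ⟨?_, ?_, ?_⟩
  · rw [← h.sum]
    exact Equiv.sum_comp σ v
  · simp only [pv, Equiv.apply_symm_apply]
    exact h.one
  · have := h.two
    rwa [← Equiv.sum_comp σ (fun m => max (v m) 0)] at this

theorem sep_perm {v w : Fin 4 → ℝ} (σ : Equiv.Perm (Fin 4)) (h : Sep v w) :
    Sep (pv σ v) (pv σ w) := by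
  unfold Pool.Agent.Helper84.TS.Sep at h ⊢
  rwa [← Equiv.sum_comp σ (fun m => max (v m - w m) 0)] at h

theorem fcl_perm (i : Fin 4) (v : Fin 4 → ℝ) (σ : Equiv.Perm (Fin 4)) :
    fcl (σ.symm i) (pv σ v) = fcl i v := by
  obtain ⟨j, k, l, h⟩ := exists_rest3 i
  have h' : [σ.symm i, σ.symm j, σ.symm k, σ.symm l].Nodup := by
    have := h.map (f := σ.symm) σ.symm.injective
    simpa using this
  rw [fcl_eq h v, fcl_eq h']
  simp [pv]

/-- the class function of the permuted family -/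
def pc (σ : Equiv.Perm (Fin 4)) (c : (Fin 4 → ℝ) → Fin 4) : (Fin 4 → ℝ) → Fin 4 :=
  fun w => σ.symm (c (pv σ.symm w))

theorem pc_pv (σ : Equiv.Perm (Fin 4)) (c : (Fin 4 → ℝ) → Fin 4) (v : Fin 4 → ℝ) :
    pc σ c (pv σ v) = σ.symm (c v) := by
  rw [pc, pv_symm]

open Classical in
/-- the permuted family -/
theorem Fam.perm {Y : Finset (Fin 4 → ℝ)} {c : (Fin 4 → ℝ) → Fin 4} (h : Fam Y c)
    (σ : Equiv.Perm (Fin 4)) : Fam (Y.image (pv σ)) (pc σ c) := by
  refine ⟨?_, ?_⟩
  · intro v hv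
    obtain ⟨w, hw, rfl⟩ := Finset.mem_image.1 hv
    rw [pc_pv]
    exact isCell_perm σ (h.cell w hw)
  · intro v hv w hw hne
    obtain ⟨v', hv', rfl⟩ := Finset.mem_image.1 hv
    obtain ⟨w', hw', rfl⟩ := Finset.mem_image.1 hw
    exact sep_perm σ (h.sep v' hv' w' hw' (fun e => hne (by rw [e])))

open Classical in
theorem sum_perm {Y : Finset (Fin 4 → ℝ)} (c : (Fin 4 → ℝ) → Fin 4) (σ : Equiv.Perm (Fin 4)) :
    ∑ v ∈ Y.image (pv σ), fcl (pc σ c v) v = ∑ v ∈ Y, fcl (c v) v := by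
  rw [Finset.sum_image (fun a _ b _ e => pv_inj σ e)]
  refine Finset.sum_congr rfl fun v _ => ?_
  rw [pc_pv, fcl_perm]

/-- the six types -/
def types : List (Fin 4 → Fin 4) :=
  [![1, 2, 3, 0], ![1, 0, 3, 2], ![1, 2, 0, 0], ![1, 0, 0, 0], ![1, 0, 0, 1], ![1, 0, 0, 2]]

/-- every function without fixed points is conjugate to one of the six types -/
theorem exists_type : ∀ t : Fin 4 → Fin 4, (∀ m, t m ≠ m) →
    ∃ σ : Equiv.Perm (Fin 4), (fun m => σ.symm (t (σ m))) ∈ types := by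
  decide +kernel

/-! ### Families with four main cells -/

/-- `M i` is the main cell of the class `i`, of volume at least `φ`, and `t m` the class of the
lowest main entry of the column `m` -/
structure Typed (φ : ℝ) (Y : Finset (Fin 4 → ℝ)) (c : (Fin 4 → ℝ) → Fin 4)
    (M : Fin 4 → Fin 4 → ℝ) (t : Fin 4 → Fin 4) : Prop where
  fam : Fam Y c
  mem : ∀ i, M i ∈ Y
  cls : ∀ i, c (M i) = i
  main : ∀ i m, m ≠ i → -M i m ≤ 1
  good : ∀ i, φ ≤ fcl i (M i)
  tne : ∀ m, t m ≠ m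
  low : ∀ m i, i ≠ m → -M (t m) m ≤ -M i m

section

variable {φ : ℝ} {Y : Finset (Fin 4 → ℝ)} {c : (Fin 4 → ℝ) → Fin 4} {M : Fin 4 → Fin 4 → ℝ}
  {t : Fin 4 → Fin 4}

theorem Typed.cell (h : Typed φ Y c M t) (i : Fin 4) : IsCell i (M i) := by
  have := h.fam.cell (M i) (h.mem i)
  rwa [h.cls i] at this

theorem Typed.sepM (h : Typed φ Y c M t) {i j : Fin 4} (hij : i ≠ j) : Sep (M i) (M j) := by
  refine h.fam.sep _ (h.mem i) _ (h.mem j) fun e => hij ?_
  rw [← h.cls i, e, h.cls j]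

/-- the six inequalities -/
theorem Typed.thirds (h : Typed φ Y c M t) {a b m n : Fin 4} (hn : [a, b, m, n].Nodup) :
    am M t m n + am M t n m ≤ (M a a - 1) + (M b b - 1) := by
  refine Pool.Agent.Helper36.TS.thirds h.cell h.tne h.low hn (h.sepM ?_)
  simp only [List.nodup_cons, List.mem_cons, List.not_mem_nil, or_false, not_or] at hn
  exact hn.1.1

theorem Typed.low_le_mid (h : Typed φ Y c M t) (m : Fin 4) : -M (t m) m ≤ mid M t m :=
  Pool.Agent.Helper36.TS.low_le_mid h.tne h.low m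

open Classical in
theorem Typed.perm (h : Typed φ Y c M t) (σ : Equiv.Perm (Fin 4)) :
    Typed φ (Y.image (pv σ)) (pc σ c) (fun i => pv σ (M (σ i))) (fun m => σ.symm (t (σ m))) := by
  refine ⟨h.fam.perm σ, ?_, ?_, ?_, ?_, ?_, ?_⟩
  · exact fun i => Finset.mem_image_of_mem _ (h.mem _)
  · intro i
    rw [pc_pv, h.cls, Equiv.symm_apply_apply]
  · intro i m hm
    exact h.main (σ i) (σ m) fun e => hm (σ.injective e)
  · intro i
    have := fcl_perm (σ i) (M (σ i)) σ
    rw [Equiv.symm_apply_apply] at this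
    rw [this]
    exact h.good _
  · intro m e
    refine h.tne (σ m) ?_
    rw [← σ.apply_symm_apply (t (σ m)), e]
  · intro m i him
    simp only [pv, Equiv.apply_symm_apply]
    exact h.low (σ m) (σ i) fun e => him (σ.injective e)

open Classical in
/-- **Reduction to the six types.** -/
theorem exists_typed (h : Fam Y c)
    (hM : ∀ i, ∃ v ∈ Y, c v = i ∧ (∀ m, m ≠ i → -v m ≤ 1) ∧ φ ≤ fcl i v) :
    ∃ (Y' : Finset (Fin 4 → ℝ)) (c' : (Fin 4 → ℝ) → Fin 4) (M : Fin 4 → Fin 4 → ℝ)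
      (t : Fin 4 → Fin 4), t ∈ types ∧ Typed φ Y' c' M t ∧
      ∑ v ∈ Y', fcl (c' v) v = ∑ v ∈ Y, fcl (c v) v := by
  choose M h1 h2 h3 h4 using hM
  obtain ⟨t, ht1, ht2⟩ := exists_low M
  have hT : Typed φ Y c M t := ⟨h, h1, h2, h3, h4, ht1, ht2⟩
  obtain ⟨σ, hσ⟩ := exists_type t ht1
  exact ⟨_, _, _, _, hσ, hT.perm σ, sum_perm c σ⟩

end

end Pool.Agent.Helper36.TS
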